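import Pool.Agent.Lib.MP_1a91b9_ntS.R.Defs
import Pool.Agent.Lib.MP_1a91b9_ntK.Q.All2
import Pool.Agent.Lib.MP_1a91b9_ntK.Q.LimK
import Pool.Agent.Lib.MP_1a91b9_ntS3.L.Form
import Pool.Agent.Lib.MP_1a91b9_ntS3.L.Lin
import Pool.Agent.Lib.MP_1a91b9_ntS3.L.Tor

/-!
# MP_1a91b9_nt (cubic twists): the formula modulo `√-3` for every cube-free `D` which is not a cube
-/

set_option autoImplicit false

namespace Pool.Agent.Lib.MP_1a91b9_ntS3

open NumberField IsDedekindDomain Finset Pool.Agent.Lib.MP_1a91b9_ntT Pool.Agent.Lib.MP_1a91b9_ntK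
  Pool.Agent.Lib.MP_1a91b9_ntK2 Pool.Agent.Lib.MP_1a91b9_ntK2.D9
open Pool.Agent.Lib.MP_1a91b9_ntH (wO s3 Nz PS nm Sx mem_Sx prime_s3 s3_sq)
open Pool.Agent.Lib.MP_1a91b9_ntK.C (wd)

noncomputable section

theorem FormM.congr {D : 𝓞 K} {b b' : Prop} (h : FormM D b) (hb : b ↔ b') : FormM D b' := by
  obtain ⟨g, q, h1, h2, h3, h4, h5⟩ := h
  exact ⟨g, q, h1, h2, h3, h4, h5.trans hb⟩

theorem ram_ne {k : ZMod 3} (hk : k ≠ 0) (e : P3 → ZMod 3) (R : Finset P3) :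
    C.Ram3 R k.val fun q => (e q).val := by
  intro h1
  apply hk
  have h2 := (ZMod.natCast_eq_zero_iff k.val 3).2 h1.1
  rwa [ZMod.natCast_zmod_val] at h2

theorem ram_zero {e : P3 → ZMod 3} {R : Finset P3} (hA : ∑ q ∈ R, e q * d3.a q ≠ 0) :
    C.Ram3 R 0 fun q => (e q).val := by
  intro h1
  apply hA
  have h3 := h1.2
  simpa only [ZMod.natCast_zmod_val] using h3

/-- the class of the units `± 1` -/
def One9 (i : Idx) (S T : Finset P3) : Prop :=
  S ∪ T = ∅ ∧ i.2.1 = 0 ∧ i.2.2.1 = 0 ∧ i.2.2.2.1 = 0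

/-! ### The criterion in every class -/

theorem good9_k {b : Bool} {k : Fin 3} {α β : ZMod 3} {S T : Finset P3} (hk : k ≠ 0) :
    Good9 (b, k, 0, α, β) S T ↔ (NK k (eT T) (S ∪ T)).det ≠ 0 := by
  have h01 : (0 : Fin 3) ≠ 1 := by decide
  have h02 : (0 : Fin 3) ≠ 2 := by decide
  rw [NK_eq_N]
  constructor
  · rintro (⟨_, h⟩ | ⟨_, h, _, _⟩ | ⟨h, _⟩ | ⟨h, _⟩)
    · rcases h with ⟨_, h⟩ | ⟨h, _⟩
      · exact h
      · exact absurd h hk
    · exact absurd h hk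
    · exact absurd h h01
    · exact absurd h h02
  · intro h
    exact Or.inl ⟨rfl, Or.inl ⟨hk, h⟩⟩

theorem good9_0 {b : Bool} {α β : ZMod 3} {S T : Finset P3} (hα : α ≠ 0)
    (hA : ∑ q ∈ S ∪ T, eT T q * d3.a q ≠ 0) :
    Good9 (b, 0, 0, α, β) S T ↔
      CZ (fun i p => d3.s i p * eT T p) (fun q : P3 => abar q.1) (S ∪ T) ≠ 0 := by
  have h01 : (0 : Fin 3) ≠ 1 := by decide
  have h02 : (0 : Fin 3) ≠ 2 := by decide
  rw [← kc_iff (eT_ne T) hA]
  constructor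
  · rintro (⟨_, h⟩ | ⟨_, _, h, _⟩ | ⟨h, _⟩ | ⟨h, _⟩)
    · rcases h with ⟨h, _⟩ | ⟨_, _, h⟩
      · exact absurd rfl h
      · exact h
    · exact absurd h hα
    · exact absurd h h01
    · exact absurd h h02
  · intro h
    exact Or.inl ⟨rfl, Or.inr ⟨rfl, hA, h⟩⟩

theorem good9_H {b : Bool} {β : ZMod 3} {S T : Finset P3} (hR : (S ∪ T).Nonempty)
    (hA : ∑ q ∈ S ∪ T, eT T q * d3.a q = 0) (hB : ∑ q ∈ S ∪ T, eT T q * d3b.b q = β) :
    Good9 (b, 0, 0, 0, β) S T ↔ kapH d3.s aP bP (eT T) (S ∪ T) ≠ 0 := by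
  have h01 : (0 : Fin 3) ≠ 1 := by decide
  have h02 : (0 : Fin 3) ≠ 2 := by decide
  rw [← kB_iff (eT_ne T) hR hA, hB]
  constructor
  · rintro (⟨_, h⟩ | ⟨_, _, _, h⟩ | ⟨h, _⟩ | ⟨h, _⟩)
    · rcases h with ⟨h, _⟩ | ⟨_, h, _⟩
      · exact absurd rfl h
      · exact absurd hA h
    · exact h.2
    · exact absurd h h01
    · exact absurd h h02
  · intro h
    exact Or.inr (Or.inl ⟨rfl, rfl, rfl, hR, h⟩)

theorem good9_1 {b : Bool} {k : Fin 3} {α β : ZMod 3} {S T : Finset P3} :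
    Good9 (b, k, 1, α, β) S T ↔ (NJ1 k (eT T) (S ∪ T)).det ≠ 0 := by
  have h10 : (1 : Fin 3) ≠ 0 := by decide
  have h12 : (1 : Fin 3) ≠ 2 := by decide
  rw [NJ1_det]
  constructor
  · rintro (⟨h, _⟩ | ⟨h, _⟩ | ⟨_, h⟩ | ⟨h, _⟩)
    · exact absurd h h10
    · exact absurd h h10
    · exact h
    · exact absurd h h12
  · intro h
    exact Or.inr (Or.inr (Or.inl ⟨rfl, h⟩))

theorem good9_2 {b : Bool} {k : Fin 3} {α β : ZMod 3} {S T : Finset P3} :
    Good9 (b, k, 2, α, β) S T ↔ (NJ k 2 (eT T) (S ∪ T)).det ≠ 0 := by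
  have h20 : (2 : Fin 3) ≠ 0 := by decide
  have h21 : (2 : Fin 3) ≠ 1 := by decide
  rw [NJ_eq]
  constructor
  · rintro (⟨h, _⟩ | ⟨h, _⟩ | ⟨h, _⟩ | ⟨_, h⟩)
    · exact absurd h h20
    · exact absurd h h20
    · exact absurd h h21
    · exact h
  · intro h
    exact Or.inr (Or.inr (Or.inr ⟨rfl, h⟩))

theorem cls_A {S T : Finset P3} (hST : Disjoint S T) :
    ∑ q ∈ S ∪ T, eT T q * d3.a q = cl3 (DD3 S * DD3 T ^ 2) := cls_a hST

theorem cls_B {S T : Finset P3} (hST : Disjoint S T) :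
    ∑ q ∈ S ∪ T, eT T q * d3b.b q = cn3 (DD3 S * DD3 T ^ 2) := cls_b hST

/-- **The formula modulo `√-3`** in every class -/
theorem form_ph (i : Idx) {S T : Finset P3} (hST : Disjoint S T)
    (hα : cl3 (DD3 S * DD3 T ^ 2) = i.2.2.2.1) (hβ : cn3 (DD3 S * DD3 T ^ 2) = i.2.2.2.2)
    (h1 : ¬ One9 i S T) : FormM (ph i (DD3 S * DD3 T ^ 2)) (Good9 i S T) := by
  have hcube := ph_cube i hST hα hβ
  obtain ⟨b, k, j, α, β⟩ := i
  dsimp only at hα hβ
  have he : ∀ q ∈ S ∪ T, eT T q ≠ 0 := fun q _ => eT_ne T q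
  rcases fin3_cases j with rfl | rfl | rfl
  · by_cases hk : k = 0
    · subst hk
      by_cases hα0 : α = 0
      · subst hα0
        have hR : (S ∪ T).Nonempty := by
          rw [nonempty_iff_ne_empty]
          intro h
          exact h1 ⟨h, rfl, rfl, rfl⟩
        have hA : ∑ q ∈ S ∪ T, eT T q * d3.a q = 0 := by rw [cls_A hST, hα]
        have hB : ∑ q ∈ S ∪ T, eT T q * d3b.b q = β := by rw [cls_B hST, hβ]
        have hA' : ∑ q ∈ S ∪ T, eT T q * aP q = 0 := by rw [sum_aP', hA, neg_zero]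
        exact (form_H hR he hA' (ph_zero b 0 0 β hST) hcube).congr (good9_H hR hA hB).symm
      · have hA : ∑ q ∈ S ∪ T, eT T q * d3.a q ≠ 0 := by
          rw [cls_A hST, hα]
          exact hα0
        have hR : (S ∪ T).Nonempty := by
          rw [nonempty_iff_ne_empty]
          intro h
          rw [h] at hA
          exact hA sum_empty
        exact (form_0 hR he (ph_zero b 0 α β hST) (ram_zero hA) hcube).congr (good9_0 hα0 hA).symm
    · exact (form_K hk he (ph_zero b k α β hST) (ram_ne hk _ _) hcube).congr (good9_k hk).symm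
  · exact (form_J1 he (ph_j b k 1 α β hST) hcube).congr good9_1.symm
  · exact (form_J2 he (ph_j b k 2 α β hST) hcube).congr good9_2.symm

/-! ### The elements -/

/-- every cube-free element is in one of the families -/
theorem exists_ph9 {D : 𝓞 K} (hD : ∀ p : 𝓞 K, Prime p → ¬ p ^ 3 ∣ D) :
    ∃ (i : Idx) (S T : Finset P3), Disjoint S T ∧ cl3 (DD3 S * DD3 T ^ 2) = i.2.2.2.1 ∧
      cn3 (DD3 S * DD3 T ^ 2) = i.2.2.2.2 ∧ ph i (DD3 S * DD3 T ^ 2) = D := by
  obtain ⟨i, y, ⟨h1, h2, h3, h4⟩, h5⟩ := exists_ph ((CF_iff D).2 hD)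
  obtain ⟨S, T, hST, hy⟩ := prm3.exists_pp (Nz y) le_rfl h2 h1
  have hy' : DD3 S * DD3 T ^ 2 = y := hy
  exact ⟨i, S, T, hST, by rw [hy', h3], by rw [hy', h4], by rw [hy', h5]⟩

theorem one9_ph {i : Idx} {S T : Finset P3} (h : One9 i S T) :
    ph i (DD3 S * DD3 T ^ 2) = 1 ∨ ph i (DD3 S * DD3 T ^ 2) = -1 := by
  obtain ⟨h1, h2, h3, -⟩ := h
  obtain ⟨b, k, j, α, β⟩ := i
  dsimp only at h2 h3
  subst h2 h3
  have hS : S = ∅ := subset_empty.1 (h1 ▸ subset_union_left)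
  have hT : T = ∅ := subset_empty.1 (h1 ▸ subset_union_right)
  subst hS hT
  have e : DD3 (∅ : Finset P3) = 1 := prod_empty
  rw [e]
  unfold ph un
  dsimp only
  cases b
  · left
    change (if false = true then -1 else 1) * wO ^ 0 * (s3 ^ 0 * (1 * 1 ^ 2)) = (1 : 𝓞 K)
    rw [if_neg (by simp)]
    ring
  · right
    change (if true = true then -1 else 1) * wO ^ 0 * (s3 ^ 0 * (1 * 1 ^ 2)) = (-1 : 𝓞 K)
    rw [if_pos rfl]
    ring

/-- an element outside of the class of the units is not `± 1` -/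
theorem ph_ne_one {i : Idx} {S T : Finset P3} (hST : Disjoint S T)
    (hα : cl3 (DD3 S * DD3 T ^ 2) = i.2.2.2.1) (h : ¬ One9 i S T) :
    ph i (DD3 S * DD3 T ^ 2) ≠ 1 ∧ ph i (DD3 S * DD3 T ^ 2) ≠ -1 := by
  have key : ¬ IsUnit (ph i (DD3 S * DD3 T ^ 2)) ∨
      (¬ 3 * s3 ∣ ph i (DD3 S * DD3 T ^ 2) - 1 ∧ ¬ 3 * s3 ∣ ph i (DD3 S * DD3 T ^ 2) + 1) := by
    obtain ⟨b, k, j, α, β⟩ := i
    by_cases hR : (S ∪ T).Nonempty
    · left
      obtain ⟨q, hq⟩ := hR
      intro hu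
      have h1 : q.1 ∣ DD3 S * DD3 T ^ 2 := by
        rcases mem_union.1 hq with h2 | h2
        · exact (dvd_prod_of_mem (fun p : P3 => p.1) h2).mul_right _
        · exact ((dvd_prod_of_mem (fun p : P3 => p.1) h2).trans (dvd_pow_self _ two_ne_zero)).mul_left _
      refine q.2.1.not_isUnit (isUnit_of_dvd_unit ?_ hu)
      rw [ph_eq]
      exact Dvd.dvd.mul_left (Dvd.dvd.mul_left h1 _) _
    · rw [not_nonempty_iff_eq_empty] at hR
      by_cases hj : j = 0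
      · subst hj
        right
        by_cases hk : k = 0
        · subst hk
          exfalso
          apply h
          refine ⟨hR, rfl, rfl, ?_⟩
          have h2 := cls_A hST
          rw [hR, sum_empty] at h2
          rw [← hα, ← h2]
        · exact C.ram3_pm (ram_ne hk (eT T) (S ∪ T)) (ph_zero b k α β hST)
      · left
        intro hu
        refine prime_s3.not_isUnit (isUnit_of_dvd_unit ?_ hu)
        rw [ph_eq]
        refine (dvd_pow_self s3 ?_).mul_right _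
        intro h2
        exact hj (Fin.ext h2)
  constructor
  · intro h1
    rw [h1] at key
    rcases key with h2 | ⟨h2, _⟩
    · exact h2 isUnit_one
    · apply h2
      rw [sub_self]
      exact dvd_zero _
  · intro h1
    rw [h1] at key
    rcases key with h2 | ⟨_, h2⟩
    · exact h2 isUnit_one.neg
    · apply h2
      rw [neg_add_cancel]
      exact dvd_zero _

end

end Pool.Agent.Lib.MP_1a91b9_ntS3
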