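import Pool.Agent.Lib.MP_1a91b9_ntS3.L.One
import Pool.Agent.Lib.MP_1a91b9_ntS3.Q.FormI

/-!
# MP_1a91b9_nt (cubic twists): the conjecture of Birch and Swinnerton-Dyer modulo 3 for every cubic twist,
from the converse of the descent
-/

set_option autoImplicit false

namespace Pool.Agent.Lib.MP_1a91b9_ntS3

open NumberField IsDedekindDomain Finset Pool.Agent.Lib.MP_1a91b9_ntT Pool.Agent.Lib.MP_1a91b9_ntK
  Pool.Agent.Lib.MP_1a91b9_ntK2 Pool.Agent.Lib.MP_1a91b9_ntK2.D9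
open Pool.Agent.Lib.MP_1a91b9_ntH (wO s3 Nz PS nm Sx mem_Sx prime_s3 s3_sq)
open Pool.Agent.Lib.MP_1a91b9_ntK.C (wd)
open Pool.Agent.Lib.MP_1a91b9_ntT3.S9 (ShaP PPartQ)
open Pool.Agent.Lib.MP_1a91b9_ntS (BSDMod)
open scoped Classical

noncomputable section

/-- The converse of the descent. -/
def Conv9 : Prop := ∀ (i : Idx) (S T : Finset P3), Disjoint S T →
  cl3 (DD3 S * DD3 T ^ 2) = i.2.2.2.1 → cn3 (DD3 S * DD3 T ^ 2) = i.2.2.2.2 → ¬ One9 i S T →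
  Finite (wd ((ph i (DD3 S * DD3 T ^ 2) : 𝓞 K) : K)).toAffine.Point →
  Nat.card (ShaP 3 (wd ((ph i (DD3 S * DD3 T ^ 2) : 𝓞 K) : K))) = 1 → Good9 i S T

/-- The descent for `D = ± 1`. -/
def One3 : Prop := ∀ D : 𝓞 K, D = 1 ∨ D = -1 → Finite (wd (D : K)).toAffine.Point ∧
  Nat.card (AddCommGroup.primaryComponent (wd (D : K)).toAffine.Point 3) = 9 ∧
  Nat.card (ShaP 3 (wd (D : K))) = 1

theorem good_iff (hC : Conv9) (i : Idx) {S T : Finset P3} (hST : Disjoint S T)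
    (hα : cl3 (DD3 S * DD3 T ^ 2) = i.2.2.2.1) (hβ : cn3 (DD3 S * DD3 T ^ 2) = i.2.2.2.2)
    (h1 : ¬ One9 i S T) : Good9 i S T ↔
      Finite (wd ((ph i (DD3 S * DD3 T ^ 2) : 𝓞 K) : K)).toAffine.Point ∧
        Nat.card (ShaP 3 (wd ((ph i (DD3 S * DD3 T ^ 2) : 𝓞 K) : K))) = 1 := by
  constructor
  · intro h
    obtain ⟨h2, h3, -⟩ := q2_all i hST hα hβ h
    obtain ⟨g, q, -, -, -, hf, -⟩ := h2
    exact ⟨hf, h3⟩
  · rintro ⟨h2, h3⟩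
    exact hC i S T hST hα hβ h1 h2 h3

theorem bsd_ph (hC : Conv9) (i : Idx) {S T : Finset P3} (hST : Disjoint S T)
    (hα : cl3 (DD3 S * DD3 T ^ 2) = i.2.2.2.1) (hβ : cn3 (DD3 S * DD3 T ^ 2) = i.2.2.2.2)
    (h1 : ¬ One9 i S T) :
    ∃ q : ℚ, BSDMod 3 (wd ((ph i (DD3 S * DD3 T ^ 2) : 𝓞 K) : K)) q := by
  obtain ⟨g, q, h2, h3, h4, h5, h6⟩ := form_ph i hST hα hβ h1
  have hn := ph_ne_one hST hα h1
  have hp := card_prim_wd (ph_cube i hST hα hβ) hn.1 hn.2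
  refine ⟨q, ⟨g, h2, h3, ?_⟩, h5, h6.trans (good_iff hC i hST hα hβ h1)⟩
  rw [h4, hp]
  norm_num

theorem bsd_one (hO : One3) {D : 𝓞 K} (hD : D = 1 ∨ D = -1) : ∃ q : ℚ, BSDMod 3 (wd (D : K)) q := by
  obtain ⟨g, q, h2, h3, h4, h5, h6⟩ := form_one hD
  obtain ⟨o1, o2, o3⟩ := hO D hD
  refine ⟨q, ⟨g, h2, h3, ?_⟩, h5, ⟨fun _ => ⟨o1, o3⟩, fun _ => h6⟩⟩
  rw [h4, o2]
  norm_num

/-- **BSD modulo 3** for every cube-free element. -/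
theorem bsd_all (hC : Conv9) (hO : One3) {D : 𝓞 K} (hD : ∀ p : 𝓞 K, Prime p → ¬ p ^ 3 ∣ D) :
    ∃ q : ℚ, BSDMod 3 (wd (D : K)) q := by
  obtain ⟨i, S, T, hST, hα, hβ, rfl⟩ := exists_ph9 hD
  by_cases h : One9 i S T
  · exact bsd_one hO (one9_ph h)
  · exact bsd_ph hC i hST hα hβ h

theorem exists_val (hC : Conv9) (hO : One3) (D : 𝓞 K) :
    ∃ q : ℚ, (∀ p : 𝓞 K, Prime p → ¬ p ^ 3 ∣ D) → BSDMod 3 (wd (D : K)) q := by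
  by_cases h : ∀ p : 𝓞 K, Prime p → ¬ p ^ 3 ∣ D
  · obtain ⟨q, hq⟩ := bsd_all hC hO h
    exact ⟨q, fun _ => hq⟩
  · exact ⟨0, fun h1 => absurd h1 h⟩

/-- The normalised value of the L-series. -/
def qv (hC : Conv9) (hO : One3) (D : 𝓞 K) : ℚ := (exists_val hC hO D).choose

theorem qv_spec (hC : Conv9) (hO : One3) {D : 𝓞 K} (h : ∀ p : 𝓞 K, Prime p → ¬ p ^ 3 ∣ D) :
    BSDMod 3 (wd (D : K)) (qv hC hO D) := (exists_val hC hO D).choose_spec h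

theorem qv_iff (hC : Conv9) (hO : One3) (i : Idx) {S T : Finset P3} (hST : Disjoint S T)
    (hα : cl3 (DD3 S * DD3 T ^ 2) = i.2.2.2.1) (hβ : cn3 (DD3 S * DD3 T ^ 2) = i.2.2.2.2)
    (h1 : ¬ One9 i S T) :
    ¬ (3 : ℤ) ∣ (qv hC hO (ph i (DD3 S * DD3 T ^ 2))).num ↔ Good9 i S T := by
  have h := (qv_spec hC hO (ph_cube i hST hα hβ)).2.2
  exact h.trans (good_iff hC i hST hα hβ h1).symm

/-- a good pair is not in the class of the units `± 1` -/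
theorem not_one9 {i : Idx} {S T : Finset P3} (h : Good9 i S T) : ¬ One9 i S T := by
  rintro ⟨h1, h2, h3, h4⟩
  obtain ⟨b, k, j, α, β⟩ := i
  dsimp only at h2 h3 h4
  subst h2 h3 h4
  have h01 : (0 : Fin 3) ≠ 1 := by decide
  have h02 : (0 : Fin 3) ≠ 2 := by decide
  rcases h with ⟨_, h⟩ | ⟨_, _, _, h⟩ | ⟨h, _⟩ | ⟨h, _⟩
  · rcases h with ⟨h, _⟩ | ⟨_, h, _⟩
    · exact h rfl
    · apply h
      rw [h1, sum_empty]
  · obtain ⟨q, hq⟩ := h.1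
    rw [h1] at hq
    exact absurd hq (notMem_empty q)
  · exact h01 h
  · exact h02 h

theorem not_s3_pow {s m u : 𝓞 K} (hs : s ^ 2 = -3) (hu : ¬ (s ^ 3 ∣ m ∧ s ^ 3 ∣ u)) :
    ¬ (s3 ^ 3 ∣ m ∧ s3 ^ 3 ∣ u) := by
  rcases s_eq hs with rfl | rfl
  · exact hu
  · intro h
    have e : (-s3 : 𝓞 K) ^ 3 = -s3 ^ 3 := by ring
    rw [e] at hu
    exact hu ⟨(neg_dvd).2 h.1, (neg_dvd).2 h.2⟩

theorem main_of (hC : Conv9) (hO : One3) : ∃ q : 𝓞 (CyclotomicField 3 ℚ) → ℚ,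
    (∀ D : 𝓞 (CyclotomicField 3 ℚ), (∀ p, Prime p → ¬ p ^ 3 ∣ D) →
      ∀ W : WeierstrassCurve (CyclotomicField 3 ℚ),
        W = ⟨0, 0, (D : CyclotomicField 3 ℚ), 0, 0⟩ → BSDMod 3 W (q D)) ∧
    ∀ s m u : 𝓞 (CyclotomicField 3 ℚ), s ^ 2 = -3 → m ∣ 9 → ¬ (s ^ 3 ∣ m ∧ s ^ 3 ∣ u) →
      Filter.Tendsto (fun X : ℝ =>
        (Nat.card {D : 𝓞 (CyclotomicField 3 ℚ) // (∀ p, Prime p → ¬ p ^ 3 ∣ D) ∧ m ∣ D - u ∧
          |Algebra.norm ℤ D| ≤ X ∧ ¬ 3 ∣ (q D).num} : ℝ) /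
        (Nat.card {D : 𝓞 (CyclotomicField 3 ℚ) // (∀ p, Prime p → ¬ p ^ 3 ∣ D) ∧ m ∣ D - u ∧
          |Algebra.norm ℤ D| ≤ X} : ℝ)) Filter.atTop
        (nhds (∏' i : ℕ, (1 + 1 / (3 : ℝ) ^ (i + 1))⁻¹)) := by
  refine ⟨qv hC hO, fun D hD W hW => ?_, fun s m u hs hm hu => ?_⟩
  · subst hW
    exact qv_spec hC hO hD
  · refine lim9 hm (not_s3_pow hs hu) (fun D => ¬ (3 : ℤ) ∣ (qv hC hO D).num) ?_ ?_
    · intro i S T hST hα hβ hG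
      exact (qv_iff hC hO i hST hα hβ (not_one9 hG)).2 hG
    · intro i S T hST hR hα hβ hPr
      exact (qv_iff hC hO i hST hα hβ fun h => hR.ne_empty h.1).1 hPr

end

end Pool.Agent.Lib.MP_1a91b9_ntS3
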