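import Pool.Agent.Lib.MP_1a91b9_ntS3.C.Asm
import Pool.Agent.Lib.MP_1a91b9_ntS3.Q.MainOf

/-!
# MP_1a91b9_nt (cubic twists): the converse of the descent in all families
-/

set_option autoImplicit false

namespace Pool.Agent.Lib.MP_1a91b9_ntS3

open NumberField IsDedekindDomain Finset Pool.Agent.Lib.MP_1a91b9_ntT Pool.Agent.Lib.MP_1a91b9_ntK
  Pool.Agent.Lib.MP_1a91b9_ntK2 Pool.Agent.Lib.MP_1a91b9_ntK2.D9
open Pool.Agent.Lib.MP_1a91b9_ntH (wO s3 Nz PS nm Sx mem_Sx prime_s3 s3_sq)
open Pool.Agent.Lib.MP_1a91b9_ntK.C (wd)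
open Pool.Agent.Lib.MP_1a91b9_ntT3.S9 (ShaP)

noncomputable section

/-- **The converse of the descent**, all classes. -/
theorem conv9 : Conv9 := by
  intro i S T hST hα hβ h1 hfin hsha
  obtain ⟨b, k, j, α, β⟩ := i
  dsimp only at hα hβ
  have he : ∀ q ∈ S ∪ T, eT T q ≠ 0 := fun q _ => eT_ne T q
  rcases fin3_cases j with rfl | rfl | rfl
  · by_cases hk : k = 0
    · subst hk
      by_cases hα0 : α = 0
      · subst hα0
        have hR : (S ∪ T).Nonempty := by
          rw [nonempty_iff_ne_empty]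
          intro h
          exact h1 ⟨h, rfl, rfl, rfl⟩
        have hA : ∑ q ∈ S ∪ T, eT T q * d3.a q = 0 := by rw [cls_A hST, hα]
        have hB : ∑ q ∈ S ∪ T, eT T q * d3b.b q = β := by rw [cls_B hST, hβ]
        have hA' : ∑ q ∈ S ∪ T, eT T q * aP q = 0 := by rw [sum_aP', hA, neg_zero]
        rw [good9_H hR hA hB]
        intro h
        exact C.conv_H hR he hA' h (ph_zero b 0 0 β hST) hfin hsha
      · have hA : ∑ q ∈ S ∪ T, eT T q * d3.a q ≠ 0 := by
          rw [cls_A hST, hα]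
          exact hα0
        have hB : ∑ q ∈ S ∪ T, eT T q * abar q.1 ≠ 0 := by
          intro h
          apply hA
          have h2 : ∑ q ∈ S ∪ T, eT T q * abar q.1 = -∑ q ∈ S ∪ T, eT T q * d3.a q := sum_aP'
          rw [h] at h2
          exact neg_eq_zero.1 h2.symm
        rw [good9_0 hα0 hA]
        intro h
        exact C.conv_B he hB h (ph_zero b 0 α β hST) hfin hsha
    · rw [good9_k hk]
      intro h
      exact C.conv_A hk he h (ph_zero b k α β hST) hfin hsha
  · rw [good9_1]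
    intro h
    exact C.conv_J1 he h (ph_j b k 1 α β hST) hfin hsha
  · rw [good9_2]
    intro h
    exact C.conv_J2 he h (ph_j b k 2 α β hST) hfin hsha

end

end Pool.Agent.Lib.MP_1a91b9_ntS3
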