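import Pool.Agent.Lib.MP_1a91b9_ntS3.C.One
import Pool.Agent.Lib.MP_1a91b9_ntS3.Q.Conv

/-!
# MP_1a91b9_nt (cubic twists): the conjecture of Birch and Swinnerton-Dyer modulo 3 for every cubic twist
-/

set_option autoImplicit false

namespace Pool.Agent.Lib.MP_1a91b9_ntS3

open NumberField Pool.Agent.Lib.MP_1a91b9_ntS

/-- **The conjecture of Birch and Swinnerton-Dyer modulo `3` for every cubic twist.** -/
theorem main_q3T : ∃ q : 𝓞 (CyclotomicField 3 ℚ) → ℚ,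
    (∀ D : 𝓞 (CyclotomicField 3 ℚ), (∀ p, Prime p → ¬ p ^ 3 ∣ D) →
      ∀ W : WeierstrassCurve (CyclotomicField 3 ℚ),
        W = ⟨0, 0, (D : CyclotomicField 3 ℚ), 0, 0⟩ → BSDMod 3 W (q D)) ∧
    ∀ s m u : 𝓞 (CyclotomicField 3 ℚ), s ^ 2 = -3 → m ∣ 9 → ¬ (s ^ 3 ∣ m ∧ s ^ 3 ∣ u) →
      Filter.Tendsto (fun X : ℝ =>
        (Nat.card {D : 𝓞 (CyclotomicField 3 ℚ) // (∀ p, Prime p → ¬ p ^ 3 ∣ D) ∧ m ∣ D - u ∧
          |Algebra.norm ℤ D| ≤ X ∧ ¬ 3 ∣ (q D).num} : ℝ) /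
        (Nat.card {D : 𝓞 (CyclotomicField 3 ℚ) // (∀ p, Prime p → ¬ p ^ 3 ∣ D) ∧ m ∣ D - u ∧
          |Algebra.norm ℤ D| ≤ X} : ℝ)) Filter.atTop
        (nhds (∏' i : ℕ, (1 + 1 / (3 : ℝ) ^ (i + 1))⁻¹)) :=
  main_of conv9 fun _ hD => wd_unit hD

end Pool.Agent.Lib.MP_1a91b9_ntS3
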